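import Mathlib

/-!
# Flags that are hard to generate: restriction of scalars of arcs
-/

namespace Pool.Agent.H115G

open Finset

section arc

variable {K R : Type*} [Field K] [CommRing R] [Algebra K R] {e k m : ℕ}

/-- the embedding of the `z`-coordinates -/
noncomputable def zeta (b : Module.Basis (Fin e) K R) (hk : k ≤ e) : (Fin k → K) →ₗ[K] R :=
  Fintype.linearCombination K (fun a => b (Fin.castLE hk a))

theorem zeta_injective (b : Module.Basis (Fin e) K R) (hk : k ≤ e) :
    Function.Injective (zeta b hk) := by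
  have h : LinearIndependent K (fun a : Fin k => b (Fin.castLE hk a)) :=
    b.linearIndependent.comp _ (Fin.castLE_injective hk)
  exact (linearIndependent_iff_injective_fintypeLinearCombination.1 h)

/-- the space -/
abbrev Sp (K R : Type*) (k : ℕ) := R × (Fin k → K) × R

/-- the linear forms `x + t y + t ^ 2 z` -/
noncomputable def ell (b : Module.Basis (Fin e) K R) (hk : k ≤ e) (t : R) :
    Sp K R k →ₗ[K] R :=
  (LinearMap.snd K (Fin k → K) R).comp (LinearMap.snd K R ((Fin k → K) × R)) +
    (LinearMap.mulLeft K t).comp (LinearMap.fst K R ((Fin k → K) × R)) +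
    (LinearMap.mulLeft K (t ^ 2)).comp ((zeta b hk).comp
      ((LinearMap.fst K (Fin k → K) R).comp (LinearMap.snd K R ((Fin k → K) × R))))

theorem ell_apply (b : Module.Basis (Fin e) K R) (hk : k ≤ e) (t : R) (v : Sp K R k) :
    ell b hk t v = v.2.2 + t * v.1 + t ^ 2 * zeta b hk v.2.1 := rfl

/-- the members of the flag -/
noncomputable def flg (b : Module.Basis (Fin e) K R) (hk : k ≤ e) (t : R) (i : ℕ) :
    Submodule K (Sp K R k) where
  carrier := {v | (∀ a : Fin e, i ≤ a → b.repr v.1 a = 0) ∧ (∀ a : Fin k, i ≤ e + a → v.2.1 a = 0) ∧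
    (∀ a : Fin e, i ≤ e + k + a → b.repr (ell b hk t v) a = 0)}
  add_mem' := by
    rintro v w ⟨h1, h2, h3⟩ ⟨g1, g2, g3⟩
    refine ⟨fun a ha => ?_, fun a ha => ?_, fun a ha => ?_⟩
    · simp [h1 a ha, g1 a ha]
    · simp [h2 a ha, g2 a ha]
    · simp [h3 a ha, g3 a ha]
  zero_mem' := by
    refine ⟨fun a ha => ?_, fun a ha => ?_, fun a ha => ?_⟩ <;> simp
  smul_mem' := by
    rintro c v ⟨h1, h2, h3⟩
    refine ⟨fun a ha => ?_, fun a ha => ?_, fun a ha => ?_⟩
    · simp [h1 a ha]
    · simp [h2 a ha]
    · simp [h3 a ha]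

theorem mem_flg (b : Module.Basis (Fin e) K R) (hk : k ≤ e) (t : R) (i : ℕ) (v : Sp K R k) :
    v ∈ flg b hk t i ↔ (∀ a : Fin e, i ≤ a → b.repr v.1 a = 0) ∧
      (∀ a : Fin k, i ≤ e + a → v.2.1 a = 0) ∧
      (∀ a : Fin e, i ≤ e + k + a → b.repr (ell b hk t v) a = 0) := Iff.rfl

theorem flg_mono (b : Module.Basis (Fin e) K R) (hk : k ≤ e) (t : R) {i i' : ℕ} (h : i ≤ i') :
    flg b hk t i ≤ flg b hk t i' := by
  intro v hv
  exact ⟨fun a ha => hv.1 a (h.trans ha), fun a ha => hv.2.1 a (h.trans ha),
    fun a ha => hv.2.2 a (h.trans ha)⟩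

theorem flg_lt (b : Module.Basis (Fin e) K R) (hk : k ≤ e) (t : R) {i : ℕ} (hi : i < 2 * e + k) :
    ∃ v ∈ flg b hk t (i + 1), v ∉ flg b hk t i := by
  rcases Nat.lt_or_ge i e with h | h
  · refine ⟨(b ⟨i, h⟩, 0, -(t * b ⟨i, h⟩)), ?_, ?_⟩
    · refine ⟨fun a ha => ?_, fun a ha => rfl, fun a ha => ?_⟩
      · simp only [Module.Basis.repr_self]
        rw [Finsupp.single_apply, if_neg]
        intro h1
        rw [← h1] at ha
        simp at ha
      · rw [ell_apply]
        simp
    · intro hcon
      have := hcon.1 ⟨i, h⟩ (le_refl _)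
      simp at this
  · rcases Nat.lt_or_ge i (e + k) with h' | h'
    · refine ⟨(0, Pi.single ⟨i - e, by omega⟩ 1, -(t ^ 2 * zeta b hk (Pi.single ⟨i - e, by omega⟩ 1))),
        ?_, ?_⟩
      · refine ⟨fun a ha => ?_, fun a ha => ?_, fun a ha => ?_⟩
        · simp
        · simp only
          rw [Pi.single_apply, if_neg]
          rintro rfl
          simp only at ha
          omega
        · rw [ell_apply]
          simp
      · intro hcon
        have := hcon.2.1 ⟨i - e, by omega⟩ (by simp only; omega)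
        simp at this
    · refine ⟨(0, 0, b ⟨i - e - k, by omega⟩), ?_, ?_⟩
      · refine ⟨fun a ha => ?_, fun a ha => rfl, fun a ha => ?_⟩
        · simp
        · rw [ell_apply]
          simp only [mul_zero, map_zero, add_zero, Module.Basis.repr_self]
          rw [Finsupp.single_apply, if_neg]
          intro h1
          rw [← h1] at ha
          simp only at ha
          omega
      · intro hcon
        have := hcon.2.2 ⟨i - e - k, by omega⟩ (by simp only; omega)
        rw [ell_apply] at this
        simp at this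

theorem ell_eq_zero (b : Module.Basis (Fin e) K R) (hk : k ≤ e) (t : R) {i : ℕ} (hi : i ≤ e + k)
    {v : Sp K R k} (hv : v ∈ flg b hk t i) : ell b hk t v = 0 := by
  apply b.repr.injective
  ext a
  rw [hv.2.2 a (by omega)]
  simp

theorem z_eq_zero (b : Module.Basis (Fin e) K R) (hk : k ≤ e) (t : R) {i : ℕ} (hi : i ≤ e)
    {v : Sp K R k} (hv : v ∈ flg b hk t i) : v.2.1 = 0 := by
  ext a
  exact hv.2.1 a (by omega)

theorem mem_flg_of (b : Module.Basis (Fin e) K R) (hk : k ≤ e) (t : R) {i : ℕ}
    {v : Sp K R k} (h : ell b hk t v = 0) (hz : ∀ a : Fin k, i ≤ a → v.2.1 a = 0) :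
    v ∈ flg b hk t (e + i) := by
  refine ⟨fun a ha => ?_, fun a ha => hz a (by omega), fun a ha => by rw [h]; simp⟩
  have := a.2
  omega

variable {b : Module.Basis (Fin e) K R} {hk : k ≤ e}

theorem two_zero {t t' : R} (hu : IsUnit (t - t')) {v : Sp K R k} (h : ell b hk t v = 0)
    (h' : ell b hk t' v = 0) : v.1 + (t + t') * zeta b hk v.2.1 = 0 := by
  rw [ell_apply] at h h'
  have : (t - t') * (v.1 + (t + t') * zeta b hk v.2.1) = 0 := by
    linear_combination h - h'
  exact (hu.mul_right_eq_zero).1 this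

theorem eq_zero_of_two {t t' : R} (hu : IsUnit (t - t')) {v : Sp K R k} (h : ell b hk t v = 0)
    (h' : ell b hk t' v = 0) (hz : v.2.1 = 0) : v = 0 := by
  have h1 := two_zero hu h h'
  rw [hz, map_zero, mul_zero, add_zero] at h1
  rw [ell_apply, hz, h1, map_zero, mul_zero, mul_zero, add_zero, add_zero] at h
  exact Prod.ext h1 (Prod.ext hz h)

theorem eq_zero_of_three {t t' t'' : R} (hu : IsUnit (t - t')) (hu' : IsUnit (t - t''))
    (hu'' : IsUnit (t' - t'')) {v : Sp K R k} (h : ell b hk t v = 0)
    (h' : ell b hk t' v = 0) (h'' : ell b hk t'' v = 0) : v = 0 := by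
  have h1 := two_zero hu h h'
  have h2 := two_zero hu' h h''
  have h3 : (t' - t'') * zeta b hk v.2.1 = 0 := by linear_combination h1 - h2
  have h4 := (hu''.mul_right_eq_zero).1 h3
  have hz : v.2.1 = 0 := by
    apply zeta_injective b hk
    rw [h4, map_zero]
  exact eq_zero_of_two hu h h' hz

/-- the lower bound for the flags above -/
theorem arc_bound (t : Fin m → R) (ht : ∀ i j, i ≠ j → IsUnit (t i - t j))
    (S : Finset (Sp K R k))
    (hS : ∀ (j : Fin m) (i : ℕ), i < 2 * e + k → ∃ v ∈ S, v ∈ flg b hk (t j) (i + 1) ∧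
      v ∉ flg b hk (t j) i) :
    m * e + k * ((m + 1) / 2) ≤ S.card := by
  classical
  choose! p hp1 hp2 hp3 using hS
  have hne : ∀ j i, i < 2 * e + k → p j i ≠ 0 := by
    intro j i hi h
    exact hp3 j i hi (h ▸ Submodule.zero_mem _)
  -- low levels
  let T1 : Finset (Sp K R k) := (univ : Finset (Fin m × Fin e)).image (fun q => p q.1 q.2)
  have hT1 : T1.card = m * e := by
    rw [Finset.card_image_of_injective, Finset.card_univ, Fintype.card_prod, Fintype.card_fin,
      Fintype.card_fin]
    rintro ⟨j, i⟩ ⟨j', i'⟩ h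
    simp only at h
    have hi := i.2
    have hi' := i'.2
    have a1 := hp2 j i (by omega)
    have a2 := hp2 j' i' (by omega)
    have b1 := hp3 j i (by omega)
    have b2 := hp3 j' i' (by omega)
    rw [← h] at a2 b2
    by_cases hj : j = j'
    · subst hj
      rcases lt_trichotomy (i : ℕ) i' with hl | hl | hl
      · exact absurd (flg_mono b hk _ (Nat.succ_le_of_lt hl) a1) b2
      · rw [Fin.ext hl]
      · exact absurd (flg_mono b hk _ (Nat.succ_le_of_lt hl) a2) b1
    · exfalso
      apply hne j i (by omega)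
      exact eq_zero_of_two (ht j j' hj) (ell_eq_zero b hk _ (by omega) a1)
        (ell_eq_zero b hk _ (by omega) a2) (z_eq_zero b hk _ (by omega) a1)
  let T2 : Fin k → Finset (Sp K R k) := fun s =>
    (univ : Finset (Fin m)).image (fun j => p j (e + s))
  have hT2 : ∀ s, (m + 1) / 2 ≤ (T2 s).card := by
    intro s
    have hs := s.2
    have h1 : (univ : Finset (Fin m)).card ≤ 2 * (T2 s).card := by
      apply Finset.card_le_mul_card_image
      intro v _
      by_contra hcon
      push Not at hcon
      obtain ⟨j1, m1, j2, m2, j3, m3, n1, n2, n3⟩ := Finset.two_lt_card.1 hcon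
      have q1 := (mem_filter.1 m1).2
      have q2 := (mem_filter.1 m2).2
      have q3 := (mem_filter.1 m3).2
      have a1 := hp2 j1 (e + s) (by omega)
      have a2 := hp2 j2 (e + s) (by omega)
      have a3 := hp2 j3 (e + s) (by omega)
      rw [q1] at a1
      rw [q2] at a2
      rw [q3] at a3
      apply hne j1 (e + s) (by omega)
      rw [q1]
      exact eq_zero_of_three (ht j1 j2 n1) (ht j1 j3 n2) (ht j2 j3 n3)
        (ell_eq_zero b hk _ (by omega) a1) (ell_eq_zero b hk _ (by omega) a2)
        (ell_eq_zero b hk _ (by omega) a3)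
    rw [Finset.card_univ, Fintype.card_fin] at h1
    omega
  have hdis2 : ∀ s s' : Fin k, s ≠ s' → Disjoint (T2 s) (T2 s') := by
    have key : ∀ s s' : Fin k, s < s' → ∀ j j', p j (e + s) ≠ p j' (e + s') := by
      intro s s' hlt j j' h
      have hs := s.2
      have hs' := s'.2
      have hlt' := Fin.lt_def.1 hlt
      have a1 := hp2 j (e + s) (by omega)
      have a2 := hp2 j' (e + s') (by omega)
      have b2 := hp3 j' (e + s') (by omega)
      rw [← h] at a2 b2
      apply b2
      exact mem_flg_of b hk _ (ell_eq_zero b hk _ (by omega) a2)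
        (fun a ha => a1.2.1 a (by omega))
    intro s s' hne'
    rw [Finset.disjoint_left]
    intro v hv hv'
    obtain ⟨j, _, rfl⟩ := mem_image.1 hv
    obtain ⟨j', _, h⟩ := mem_image.1 hv'
    rcases lt_or_gt_of_ne hne' with hlt | hlt
    · exact key s s' hlt j j' h.symm
    · exact key s' s hlt j' j h
  have hdis1 : ∀ s : Fin k, Disjoint T1 (T2 s) := by
    intro s
    rw [Finset.disjoint_left]
    intro v hv hv'
    obtain ⟨⟨j, i⟩, _, rfl⟩ := mem_image.1 hv
    obtain ⟨j', _, h⟩ := mem_image.1 hv'
    simp only at h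
    have hi := i.2
    have hs := s.2
    have a1 := hp2 j i (by omega)
    have a2 := hp2 j' (e + s) (by omega)
    have b2 := hp3 j' (e + s) (by omega)
    rw [h] at a2 b2
    apply b2
    have hz := z_eq_zero b hk _ (by omega) a1
    exact mem_flg_of b hk _ (ell_eq_zero b hk _ (by omega) a2)
      (fun a _ => by rw [hz]; rfl)
  have hsub : T1 ∪ (univ : Finset (Fin k)).biUnion T2 ⊆ S := by
    intro v hv
    rcases mem_union.1 hv with h | h
    · obtain ⟨⟨j, i⟩, _, rfl⟩ := mem_image.1 h
      have hi := i.2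
      exact hp1 j i (by omega)
    · obtain ⟨s, _, h⟩ := mem_biUnion.1 h
      obtain ⟨j, _, rfl⟩ := mem_image.1 h
      have hs := s.2
      exact hp1 j (e + s) (by omega)
  calc m * e + k * ((m + 1) / 2) ≤ T1.card + ∑ s : Fin k, (T2 s).card := by
        rw [hT1]
        have : k * ((m + 1) / 2) = ∑ _s : Fin k, (m + 1) / 2 := by simp
        rw [this]
        exact Nat.add_le_add_left (Finset.sum_le_sum fun s _ => hT2 s) _
    _ = (T1 ∪ (univ : Finset (Fin k)).biUnion T2).card := by
        rw [Finset.card_union_of_disjoint, Finset.card_biUnion]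
        · intro s _ s' _ h
          exact hdis2 s s' h
        · rw [Finset.disjoint_biUnion_right]
          intro s _
          exact hdis1 s
    _ ≤ S.card := Finset.card_le_card hsub

theorem finrank_sp (b : Module.Basis (Fin e) K R) : Module.finrank K (Sp K R k) = 2 * e + k := by
  have := Module.Finite.of_basis b
  rw [Module.finrank_prod, Module.finrank_prod, Module.finrank_fin_fun,
    Module.finrank_eq_card_basis b, Fintype.card_fin]
  ring

end arc

/-- `m` complete flags (given by chains) which are not generated by fewer than `N` vectors. -/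
def Hard (K : Type*) [Field K] (m d N : ℕ) : Prop :=
  ∃ U : Fin m → Fin (d + 1) → Submodule K (Fin d → K), (∀ j, StrictMono (U j)) ∧
    ∀ S : Finset (Fin d → K), (∀ j, ∀ i : Fin d, ∃ v ∈ S, v ∈ U j i.succ ∧ v ∉ U j i.castSucc) →
      N ≤ S.card

theorem hard_of_ring {K R : Type*} [Field K] [CommRing R] [Algebra K R] {e k m : ℕ}
    (b : Module.Basis (Fin e) K R) (hk : k ≤ e) (t : Fin m → R)
    (ht : ∀ i j, i ≠ j → IsUnit (t i - t j)) :
    Hard K m (2 * e + k) (m * e + k * ((m + 1) / 2)) := by
  classical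
  have := Module.Finite.of_basis b
  have hfr : Module.finrank K (Sp K R k) = Module.finrank K (Fin (2 * e + k) → K) := by
    rw [finrank_sp b, Module.finrank_fin_fun]
  let φ : Sp K R k ≃ₗ[K] (Fin (2 * e + k) → K) := LinearEquiv.ofFinrankEq _ _ hfr
  refine ⟨fun j i => (flg b hk (t j) i).map φ.toLinearMap, ?_, ?_⟩
  · intro j
    apply Fin.strictMono_iff_lt_succ.2
    intro i
    apply lt_of_le_of_ne
    · exact Submodule.map_mono (flg_mono b hk _ (by simp))
    · intro h
      obtain ⟨v, hv1, hv2⟩ := flg_lt b hk (t j) i.2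
      apply hv2
      have h1 : φ v ∈ (flg b hk (t j) (i.succ : ℕ)).map φ.toLinearMap :=
        Submodule.mem_map_of_mem (by simpa using hv1)
      have h' : (flg b hk (t j) (i.castSucc : ℕ)).map φ.toLinearMap =
          (flg b hk (t j) (i.succ : ℕ)).map φ.toLinearMap := h
      rw [← h'] at h1
      obtain ⟨w, hw, hwv⟩ := h1
      have : w = v := φ.injective hwv
      rw [← this]
      simpa using hw
  · intro S hS
    have h1 := arc_bound (b := b) (hk := hk) t ht (S.image φ.symm) ?_
    · exact h1.trans Finset.card_image_le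
    · intro j i hi
      obtain ⟨v, hvS, hv1, hv2⟩ := hS j ⟨i, hi⟩
      refine ⟨φ.symm v, Finset.mem_image_of_mem _ hvS, ?_, ?_⟩
      · obtain ⟨w, hw, hwv⟩ := hv1
        have : φ.symm v = w := by
          rw [← hwv]; exact φ.symm_apply_apply w
        rw [this]
        exact hw
      · intro hcon
        apply hv2
        refine ⟨φ.symm v, hcon, φ.apply_symm_apply v⟩

theorem hard_infinite (K : Type*) [Field K] [Infinite K] {e k m : ℕ} (hk : k ≤ e) :
    Hard K m (2 * e + k) (m * e + k * ((m + 1) / 2)) := by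
  classical
  obtain ⟨f⟩ : Nonempty (Fin m ↪ K) := ⟨(Fin.valEmbedding).trans (Infinite.natEmbedding K)⟩
  refine hard_of_ring (R := Fin e → K) (Pi.basisFun K (Fin e)) hk (fun j _ => f j) ?_
  intro i j hij
  rw [Pi.isUnit_iff]
  intro a
  simp only [Pi.sub_apply, isUnit_iff_ne_zero, ne_eq, sub_eq_zero]
  exact fun h => hij (f.injective h)

theorem hard_finite (K : Type*) [Field K] [Finite K] {e k m : ℕ} (he : 1 ≤ e) (hm : m ≤ e)
    (hk : k ≤ e) : Hard K m (2 * e + k) (m * e + k * ((m + 1) / 2)) := by
  classical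
  obtain ⟨p, hp⟩ := CharP.exists K
  have : Fact p.Prime := ⟨CharP.char_is_prime K p⟩
  have : NeZero e := ⟨by omega⟩
  let L := FiniteField.Extension K p e
  have hcard : m ≤ Nat.card L := by
    rw [FiniteField.natCard_extension]
    have h1 : 2 ≤ Nat.card K := by
      have := Finite.one_lt_card (α := K)
      omega
    calc m ≤ e := hm
      _ ≤ 2 ^ e := (Nat.lt_two_pow_self).le
      _ ≤ Nat.card K ^ e := Nat.pow_le_pow_left h1 e
  have hfin : Finite L := by
    apply Nat.finite_of_card_ne_zero
    have h0 : Nat.card L ≠ 0 := by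
      rw [FiniteField.natCard_extension]
      exact pow_ne_zero _ (Nat.card_pos).ne'
    exact h0
  have := Fintype.ofFinite L
  obtain ⟨f⟩ : Nonempty (Fin m ↪ L) := by
    apply Function.Embedding.nonempty_of_card_le
    rw [Fintype.card_fin, ← Nat.card_eq_fintype_card]
    exact hcard
  have hfr : Module.finrank K L = e := FiniteField.finrank_extension K p e
  refine hard_of_ring (R := L) (Module.finBasisOfFinrankEq K L hfr) hk f ?_
  intro i j hij
  rw [isUnit_iff_ne_zero, ne_eq, sub_eq_zero]
  exact fun h => hij (f.injective h)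

end Pool.Agent.H115G
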