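import Pool.Agent.H115F.Comb

/-!
# Generating complete flags of vector spaces: the upper bound over every field
-/

namespace Pool.Agent.H115G

open Pool.Agent.H115F

variable {K V : Type*} [Field K] [AddCommGroup V] [Module K V]

/-- a complete flag, in a form convenient for the proofs -/
structure VFlag (d : ℕ) (U : ℕ → Submodule K V) : Prop where
  bot : U 0 = ⊥
  top : U d = ⊤
  step : ∀ i < d, U i ≤ U (i + 1)
  ne : ∀ i < d, ∃ v ∈ U (i + 1), v ∉ U i
  exch : ∀ i < d, ∀ v ∈ U (i + 1), ∀ w ∈ U (i + 1), w ∉ U i → ∃ c : K, v - c • w ∈ U i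

/-- the vectors on level `i` -/
def Ly (U : ℕ → Submodule K V) (i : ℕ) : Set V := {v | v ∈ U (i + 1) ∧ v ∉ U i}

/-- `b` is the least level of a vector of `X` -/
def Lvl (X : Set V) (U : ℕ → Submodule K V) (b : ℕ) : Prop :=
  (∃ v ∈ X, v ∈ U (b + 1)) ∧ ∀ v ∈ X, v ∉ U b

section one

variable {d : ℕ} {U U' : ℕ → Submodule K V}

theorem VFlag.mono (h : VFlag d U) {i k : ℕ} (hik : i ≤ k) (hk : k ≤ d) : U i ≤ U k := by
  induction k with
  | zero =>
    have : i = 0 := by omega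
    rw [this]
  | succ k ih =>
    rcases Nat.lt_or_ge i (k + 1) with h1 | h1
    · exact (ih (by omega) (by omega)).trans (h.step k (by omega))
    · have : i = k + 1 := by omega
      rw [this]

theorem VFlag.exists_lvl (h : VFlag d U) {X : Set V} (hX : X.Nonempty) (h0 : (0 : V) ∉ X) :
    ∃ b < d, Lvl X U b := by
  classical
  have hd : ∃ v ∈ X, v ∈ U d := by
    obtain ⟨v, hv⟩ := hX
    exact ⟨v, hv, by rw [h.top]; trivial⟩
  have hex : ∃ i, ∃ v ∈ X, v ∈ U i := ⟨d, hd⟩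
  have hne : Nat.find hex ≠ 0 := by
    intro he
    obtain ⟨v, hv, hv0⟩ := Nat.find_spec hex
    rw [he, h.bot, Submodule.mem_bot] at hv0
    exact h0 (hv0 ▸ hv)
  obtain ⟨k, hk⟩ := Nat.exists_eq_succ_of_ne_zero hne
  refine ⟨k, ?_, ?_, ?_⟩
  · have := Nat.find_min' hex hd
    omega
  · have := Nat.find_spec hex
    rwa [hk] at this
  · intro v hv hvk
    exact Nat.find_min hex (by omega : k < Nat.find hex) ⟨v, hv, hvk⟩

theorem VFlag.lvl_unique (h : VFlag d U) {X : Set V} {b b' : ℕ} (hb : b < d) (hb' : b' < d)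
    (h1 : Lvl X U b) (h2 : Lvl X U b') : b = b' := by
  by_contra hne
  rcases Nat.lt_or_gt_of_ne hne with hlt | hlt
  · obtain ⟨v, hv, hvb⟩ := h1.1
    exact h2.2 v hv (h.mono hlt hb'.le hvb)
  · obtain ⟨v, hv, hvb⟩ := h2.1
    exact h1.2 v hv (h.mono hlt hb.le hvb)

theorem VFlag.zero_notMem (U : ℕ → Submodule K V) (i : ℕ) : (0 : V) ∉ Ly U i := fun h =>
  h.2 (U i).zero_mem

theorem VFlag.lvl_symm (h : VFlag d U) (h' : VFlag d U') {a b : ℕ} (ha : a < d) (hb : b < d)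
    (hl : Lvl (Ly U a) U' b) : Lvl (Ly U' b) U a := by
  obtain ⟨v, hv, hvb⟩ := hl.1
  refine ⟨⟨v, ⟨hvb, hl.2 v hv⟩, hv.1⟩, ?_⟩
  intro w hw hwa
  obtain ⟨c, hc⟩ := h'.exch b hb v hvb w hw.1 hw.2
  refine hl.2 (v - c • w) ⟨?_, ?_⟩ hc
  · exact (U (a + 1)).sub_mem hv.1 ((U (a + 1)).smul_mem c (h.step a ha hwa))
  · intro hcon
    apply hv.2
    have := (U a).add_mem hcon ((U a).smul_mem c hwa)
    rwa [sub_add_cancel] at this

end one

section three

variable {d : ℕ} {U : ZMod 3 → ℕ → Submodule K V}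

/-- `x` covers the vertex `v` -/
def Cv (U : ZMod 3 → ℕ → Submodule K V) (x : V) (v : W d) : Prop := x ∈ Ly (U v.1) v.2

theorem Cv.ne_zero {x : V} {v : W d} (h : Cv U x v) : x ≠ 0 := by
  rintro rfl
  exact h.2 (Submodule.zero_mem _)

theorem exists_next (hU : ∀ j, VFlag d (U j)) (v : W d) :
    ∃ b : Fin d, Lvl (Ly (U v.1) v.2) (U (v.1 + 1)) b := by
  obtain ⟨x, hx⟩ := (hU v.1).ne v.2 v.2.2
  obtain ⟨b, hb, hl⟩ := (hU (v.1 + 1)).exists_lvl (X := Ly (U v.1) v.2) ⟨x, hx⟩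
    (VFlag.zero_notMem _ _)
  exact ⟨⟨b, hb⟩, hl⟩

/-- the next vertex -/
noncomputable def nx (hU : ∀ j, VFlag d (U j)) (v : W d) : W d :=
  (v.1 + 1, (exists_next hU v).choose)

theorem nx_spec (hU : ∀ j, VFlag d (U j)) (v : W d) :
    Lvl (Ly (U v.1) v.2) (U (nx hU v).1) (nx hU v).2 := (exists_next hU v).choose_spec

theorem nx_injective (hU : ∀ j, VFlag d (U j)) : Function.Injective (nx hU) := by
  intro v w h
  have h1 := nx_spec hU v
  have h2 := nx_spec hU w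
  rw [h] at h1
  have hfl : v.1 = w.1 := by
    have : v.1 + 1 = w.1 + 1 := congrArg Prod.fst h
    exact add_right_cancel this
  obtain ⟨j, a⟩ := v
  obtain ⟨j', a'⟩ := w
  simp only at hfl
  subst hfl
  have e1 := (hU j).lvl_symm (hU (nx hU (j, a')).1) a.2 (nx hU (j, a')).2.2 h1
  have e2 := (hU j).lvl_symm (hU (nx hU (j, a')).1) a'.2 (nx hU (j, a')).2.2 h2
  have := (hU j).lvl_unique a.2 a'.2 e1 e2
  rw [Prod.mk.injEq]
  exact ⟨rfl, Fin.ext this⟩

theorem cv_pair (hU : ∀ j, VFlag d (U j)) (v : W d) :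
    ∃ x, Cv U x v ∧ Cv U x (nx hU v) := by
  obtain ⟨⟨x, hx, hx1⟩, h2⟩ := nx_spec hU v
  exact ⟨x, hx, hx1, h2 x hx⟩

/-- a good vertex -/
def Good (hU : ∀ j, VFlag d (U j)) (v : W d) : Prop :=
  nx hU (nx hU (nx hU v)) = v ∧
    ∃ x, Cv U x v ∧ Cv U x (nx hU v) ∧ Cv U x (nx hU (nx hU v))

theorem Good.next {hU : ∀ j, VFlag d (U j)} {v : W d} (h : Good hU v) : Good hU (nx hU v) := by
  obtain ⟨h1, x, h2, h3, h4⟩ := h
  refine ⟨by rw [h1], x, h3, h4, by rw [h1]; exact h2⟩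

/-- vectors covering the two other vertices of the triangle -/
def Opp (hU : ∀ j, VFlag d (U j)) (v : W d) : Set V :=
  {x | Cv U x (nx hU v) ∧ Cv U x (nx hU (nx hU v))}

theorem exists_lower (hU : ∀ j, VFlag d (U j)) (v : W d) :
    ∃ a' : Fin d, Lvl (Opp hU v) (U v.1) a' := by
  obtain ⟨x, hx⟩ := cv_pair hU (nx hU v)
  obtain ⟨a', ha', hl⟩ := (hU v.1).exists_lvl (X := Opp hU v) ⟨x, hx⟩
    (fun h => h.1.ne_zero rfl)
  exact ⟨⟨a', ha'⟩, hl⟩

/-- the lower vertex -/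
noncomputable def low (hU : ∀ j, VFlag d (U j)) (v : W d) : W d :=
  (v.1, (exists_lower hU v).choose)

theorem low_spec (hU : ∀ j, VFlag d (U j)) (v : W d) :
    Lvl (Opp hU v) (U v.1) (low hU v).2 := (exists_lower hU v).choose_spec

theorem low_cover (hU : ∀ j, VFlag d (U j)) (v : W d) :
    ∃ x, Cv U x (low hU v) ∧ Cv U x (nx hU v) ∧ Cv U x (nx hU (nx hU v)) := by
  obtain ⟨⟨x, hx, hx1⟩, h2⟩ := low_spec hU v
  exact ⟨x, ⟨hx1, h2 x hx⟩, hx⟩

theorem low_ne (hU : ∀ j, VFlag d (U j)) {v : W d}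
    (h3 : nx hU (nx hU (nx hU v)) = v) (hb : ¬ Good hU v) : low hU v ≠ v := by
  intro h
  obtain ⟨x, c1, c2, c3⟩ := low_cover hU v
  rw [h] at c1
  exact hb ⟨h3, x, c1, c2, c3⟩

theorem Cv.sub {x y : V} {v w : W d} (hU : ∀ j, VFlag d (U j)) (hx : Cv U x v) (hy : Cv U y w)
    (hj : v.1 = w.1) (hlt : v.2 < w.2) (c : K) : Cv U (y - c • x) w := by
  have hxw : x ∈ U w.1 w.2 := by
    have h1 : x ∈ U w.1 (v.2 + 1) := hj ▸ hx.1
    exact (hU w.1).mono (Nat.succ_le_of_lt (Fin.lt_def.1 hlt)) w.2.2.le h1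
  refine ⟨?_, ?_⟩
  · exact Submodule.sub_mem _ hy.1 (Submodule.smul_mem _ c ((hU w.1).step _ w.2.2 hxw))
  · intro h
    apply hy.2
    have := Submodule.add_mem _ h (Submodule.smul_mem _ c hxw)
    rwa [sub_add_cancel] at this

theorem low_aux (hU : ∀ j, VFlag d (U j)) {v w : W d} (hlow : low hU v = low hU w)
    (hlt : (nx hU v).2 < (nx hU w).2) (hvw : v ≠ w) :
    ∃ x, Cv U x (nx hU (nx hU v)) ∧ Cv U x (nx hU w) := by
  have h0 : (low hU v).1 = (low hU w).1 := by rw [hlow]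
  have hfst : v.1 = w.1 := h0
  have f1 : (nx hU v).1 = (nx hU w).1 := by
    show v.1 + 1 = w.1 + 1
    rw [hfst]
  have f2 : (nx hU (nx hU v)).1 = (nx hU (nx hU w)).1 := by
    show (nx hU v).1 + 1 = (nx hU w).1 + 1
    rw [f1]
  have hne2 : (nx hU (nx hU v)).2 ≠ (nx hU (nx hU w)).2 := by
    intro h
    exact hvw (nx_injective hU (nx_injective hU (Prod.ext f2 h)))
  obtain ⟨x, x1, x2, x3⟩ := low_cover hU v
  obtain ⟨y, y1, y2, y3⟩ := low_cover hU w
  rcases lt_or_gt_of_ne hne2 with h | h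
  · exfalso
    rw [← hlow] at y1
    obtain ⟨c, hc⟩ := (hU (low hU v).1).exch (low hU v).2 (low hU v).2.2 y y1.1 x x1.1 x1.2
    have hmem : y - c • x ∈ Opp hU w := ⟨Cv.sub hU x2 y2 f1 hlt c, Cv.sub hU x3 y3 f2 h c⟩
    have hs := (low_spec hU w).2 _ hmem
    apply hs
    have e : low hU w = low hU v := hlow.symm
    have e1 : (low hU v).1 = w.1 := by rw [hlow]; rfl
    rw [e, ← e1]
    exact hc
  · refine ⟨x + y, ?_, ?_⟩
    · have := Cv.sub hU y3 x3 f2.symm h (-1)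
      rwa [neg_smul, one_smul, sub_neg_eq_add] at this
    · have := Cv.sub hU x2 y2 f1 hlt (-1)
      rw [neg_smul, one_smul, sub_neg_eq_add] at this
      rwa [add_comm]

end three

/-! ### covering -/

/-- all levels of the flag are covered -/
def CovFlag (d : ℕ) (U : ℕ → Submodule K V) (S : Finset V) : Prop :=
  ∀ i < d, ∃ x ∈ S, x ∈ Ly U i

theorem CovFlag.mono {d : ℕ} {U : ℕ → Submodule K V} {S S' : Finset V} (h : CovFlag d U S)
    (hs : S ⊆ S') : CovFlag d U S' := by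
  intro i hi
  obtain ⟨x, hx, h1⟩ := h i hi
  exact ⟨x, hs hx, h1⟩

theorem cov_one {d : ℕ} {U : ℕ → Submodule K V} (h : VFlag d U) :
    ∃ S : Finset V, S.card ≤ d ∧ CovFlag d U S := by
  classical
  have hex : ∀ i : Fin d, ∃ x, x ∈ Ly U i := fun i => by
    obtain ⟨x, h1, h2⟩ := h.ne i i.2
    exact ⟨x, h1, h2⟩
  choose f hf using hex
  refine ⟨Finset.univ.image f, Finset.card_image_le.trans (by simp), ?_⟩
  intro i hi
  exact ⟨f ⟨i, hi⟩, Finset.mem_image_of_mem _ (Finset.mem_univ _), hf ⟨i, hi⟩⟩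

theorem cov_two {d : ℕ} {U U' : ℕ → Submodule K V} (h : VFlag d U) (h' : VFlag d U') :
    ∃ S : Finset V, S.card ≤ d ∧ CovFlag d U S ∧ CovFlag d U' S := by
  classical
  have hex : ∀ a : Fin d, ∃ x, x ∈ Ly U a ∧ ∀ b < d, Lvl (Ly U a) U' b → x ∈ Ly U' b := by
    intro a
    obtain ⟨x, hx⟩ := h.ne a a.2
    obtain ⟨b, hb, hl⟩ := h'.exists_lvl (X := Ly U a) ⟨x, hx⟩ (VFlag.zero_notMem _ _)
    obtain ⟨y, hy, hyb⟩ := hl.1
    refine ⟨y, hy, ?_⟩
    intro b' hb' hl'
    have : b' = b := h'.lvl_unique hb' hb hl' hl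
    subst this
    exact ⟨hyb, hl.2 y hy⟩
  choose f hf1 hf2 using hex
  refine ⟨Finset.univ.image f, Finset.card_image_le.trans (by simp), ?_, ?_⟩
  · intro i hi
    exact ⟨f ⟨i, hi⟩, Finset.mem_image_of_mem _ (Finset.mem_univ _), hf1 ⟨i, hi⟩⟩
  · intro b hb
    obtain ⟨x, hx⟩ := h'.ne b hb
    obtain ⟨a, ha, hl⟩ := h.exists_lvl (X := Ly U' b) ⟨x, hx⟩ (VFlag.zero_notMem _ _)
    have hl' := h'.lvl_symm h hb ha hl
    exact ⟨f ⟨a, ha⟩, Finset.mem_image_of_mem _ (Finset.mem_univ _), hf2 ⟨a, ha⟩ b hb hl'⟩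

theorem cov_three {d : ℕ} {U : ZMod 3 → ℕ → Submodule K V} (hU : ∀ j, VFlag d (U j)) :
    ∃ S : Finset V, 3 * S.card ≤ 5 * d ∧ ∀ j, CovFlag d (U j) S := by
  classical
  let G : SimpleGraph (W d) :=
    { Adj := fun v w => v ≠ w ∧ ∃ x, Cv U x v ∧ Cv U x w
      symm := ⟨fun v w h => ⟨h.1.symm, h.2.imp fun x hx => ⟨hx.2, hx.1⟩⟩⟩
      loopless := ⟨fun v h => h.1 rfl⟩ }
  have hs1 : ∀ v, (nx hU v).1 = v.1 + 1 := fun v => rfl
  obtain ⟨P, hP1, hP2, hP3⟩ := cover_bound (nx hU) (nx_injective hU) hs1 G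
    (by
      intro v
      refine ⟨fun h => ne_one v.1 ?_, cv_pair hU v⟩
      exact congrArg Prod.fst h)
    (Good hU) (fun v h => h.next) (low hU)
    (by
      intro v h3 hb
      refine ⟨rfl, low_ne hU h3 hb, ?_, ?_⟩
      · intro h
        apply ne_one v.1
        exact congrArg Prod.fst h
      · obtain ⟨x, c1, c2, _⟩ := low_cover hU v
        exact ⟨x, c1, c2⟩)
    (by
      intro v w _ _ _ _ hne hlow
      have h0 : (low hU v).1 = (low hU w).1 := by rw [hlow]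
      have hfst : v.1 = w.1 := h0
      have hne1 : (nx hU v).2 ≠ (nx hU w).2 := by
        intro h
        apply hne
        apply nx_injective hU
        refine Prod.ext ?_ h
        show v.1 + 1 = w.1 + 1
        rw [hfst]
      rcases lt_or_gt_of_ne hne1 with hlt | hlt
      · obtain ⟨x, c1, c2⟩ := low_aux hU hlow hlt hne
        refine ⟨nx hU (nx hU v), nx hU w, Or.inr rfl, Or.inl rfl, ?_, x, c1, c2⟩
        intro h
        have h1 : v.1 + 1 + 1 = w.1 + 1 := congrArg Prod.fst h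
        rw [hfst] at h1
        exact ne_one (w.1 + 1) h1.symm
      · obtain ⟨x, c1, c2⟩ := low_aux hU hlow.symm hlt hne.symm
        refine ⟨nx hU v, nx hU (nx hU w), Or.inl rfl, Or.inr rfl, ?_, x, c2, c1⟩
        intro h
        have h1 : v.1 + 1 = w.1 + 1 + 1 := congrArg Prod.fst h
        rw [hfst] at h1
        exact ne_one (w.1 + 1) h1)
    (fun v h => h.1)
  have hex : ∀ p ∈ P, ∃ x, ∀ v ∈ p, Cv U x v := by
    intro p hp
    rcases hP1 p hp with ⟨v, rfl⟩ | ⟨v, w, ⟨_, x, c1, c2⟩, rfl⟩ | ⟨v, ⟨_, x, c1, c2, c3⟩, rfl⟩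
    · obtain ⟨x, c1, _⟩ := cv_pair hU v
      refine ⟨x, ?_⟩
      intro u hu
      rw [Finset.mem_singleton] at hu
      rw [hu]; exact c1
    · refine ⟨x, ?_⟩
      intro u hu
      simp only [Finset.mem_insert, Finset.mem_singleton] at hu
      rcases hu with rfl | rfl
      · exact c1
      · exact c2
    · refine ⟨x, ?_⟩
      intro u hu
      simp only [Finset.mem_insert, Finset.mem_singleton] at hu
      rcases hu with rfl | rfl | rfl
      · exact c1
      · exact c2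
      · exact c3
  choose! f hf using hex
  refine ⟨P.image f, ?_, ?_⟩
  · have : (P.image f).card ≤ P.card := Finset.card_image_le
    omega
  · intro j i hi
    obtain ⟨p, hp, hv⟩ := hP2 (j, ⟨i, hi⟩)
    exact ⟨f p, Finset.mem_image_of_mem _ hp, hf p hp _ hv⟩

theorem cov_even {d : ℕ} {U : ℕ → ℕ → Submodule K V} (k j0 : ℕ)
    (hU : ∀ j, j0 ≤ j → j < j0 + 2 * k → VFlag d (U j)) :
    ∃ S : Finset V, S.card ≤ k * d ∧ ∀ j, j0 ≤ j → j < j0 + 2 * k → CovFlag d (U j) S := by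
  classical
  induction k with
  | zero => exact ⟨∅, by simp, fun j h1 h2 => by omega⟩
  | succ k ih =>
    obtain ⟨A, a2, a3⟩ := ih (fun j h1 h2 => hU j h1 (by omega))
    obtain ⟨B, b2, b3, b4⟩ := cov_two (hU (j0 + 2 * k) (by omega) (by omega))
      (hU (j0 + 2 * k + 1) (by omega) (by omega))
    refine ⟨A ∪ B, ?_, ?_⟩
    · have := Finset.card_union_le A B
      have h2 : (k + 1) * d = k * d + d := by ring
      omega
    · intro j h1 h2
      by_cases h3 : j < j0 + 2 * k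
      · exact (a3 j h1 h3).mono Finset.subset_union_left
      · have h4 : j = j0 + 2 * k ∨ j = j0 + 2 * k + 1 := by omega
        rcases h4 with rfl | rfl
        · exact b3.mono Finset.subset_union_right
        · exact b4.mono Finset.subset_union_right

theorem cov_odd {d : ℕ} {U : ℕ → ℕ → Submodule K V} (k : ℕ)
    (hU : ∀ j, j < 2 * k + 3 → VFlag d (U j)) :
    ∃ S : Finset V, S.card ≤ k * d + 5 * d / 3 ∧ ∀ j, j < 2 * k + 3 → CovFlag d (U j) S := by
  classical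
  obtain ⟨A, a2, a3⟩ := cov_even (d := d) (U := U) k 3 (fun j h1 h2 => hU j (by omega))
  obtain ⟨B, b2, b3⟩ := cov_three (d := d) (U := fun j => U j.val)
    (fun j => hU j.val (by have := ZMod.val_lt j; omega))
  refine ⟨A ∪ B, ?_, ?_⟩
  · have := Finset.card_union_le A B
    omega
  · intro j h2
    by_cases h3 : 3 ≤ j
    · exact (a3 j h3 (by omega)).mono Finset.subset_union_left
    · have h4 := b3 (j : ZMod 3)
      have h5 : (j : ZMod 3).val = j := by
        rw [ZMod.val_natCast]; exact Nat.mod_eq_of_lt (by omega)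
      simp only [h5] at h4
      exact h4.mono Finset.subset_union_right

/-- a covering set generates the flag -/
theorem span_eq {d : ℕ} {U : ℕ → Submodule K V} (h : VFlag d U) {S : Finset V}
    (hcov : CovFlag d U S) : ∀ i ≤ d, Submodule.span K {x | x ∈ S ∧ x ∈ U i} = U i := by
  intro i
  induction i with
  | zero =>
    intro _
    rw [h.bot]
    rw [Submodule.span_eq_bot]
    intro x hx
    exact hx.2
  | succ i ih =>
    intro hi
    apply le_antisymm
    · rw [Submodule.span_le]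
      intro x hx
      exact hx.2
    · intro v hv
      obtain ⟨x, hxS, hx1, hx2⟩ := hcov i (by omega)
      obtain ⟨c, hc⟩ := h.exch i (by omega) v hv x hx1 hx2
      have h1 : v - c • x ∈ Submodule.span K {x | x ∈ S ∧ x ∈ U (i + 1)} := by
        rw [← ih (by omega)] at hc
        refine Submodule.span_mono ?_ hc
        intro y hy
        exact ⟨hy.1, h.step i (by omega) hy.2⟩
      have h2 : x ∈ Submodule.span K {x | x ∈ S ∧ x ∈ U (i + 1)} :=
        Submodule.subset_span ⟨hxS, hx1⟩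
      have := Submodule.add_mem _ h1 (Submodule.smul_mem _ c h2)
      rwa [sub_add_cancel] at this

end Pool.Agent.H115G
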